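import Pool.Agent.Helper7.HL.Stmts

set_option autoImplicit false

/-!
Project HL, row POS: positivity and symmetry of the specialised coefficients.
-/

namespace Pool.Agent.Helper49.HL

open Finset MvPolynomial
open Pool.Agent.Helper7.HL Pool.Agent.Helper32.HG

theorem pos_div {n : ℕ} {R : Type} [CommRing R] (a : R) (f : MvPolynomial (Fin n) R)
    (h : ∀ γ : Fin n → ℕ, a ∣ coeff (ex γ) f) (μ : Fin n → ℕ) : a ∣ scf n μ f := by
  unfold scf
  rw [MvPolynomial.coeff_mul]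
  apply Finset.dvd_sum
  intro x _
  apply Dvd.dvd.mul_left
  have h1 : x.2 = ex (fun i => x.2 i) := by
    unfold ex
    ext i
    simp
  rw [h1]
  exact h _

theorem pos_lift (R : Polynomial ℤ) (h : ∀ N, 0 ≤ R.coeff N) :
    ∃ p : Polynomial ℕ, R = p.map (Nat.castRingHom ℤ) := by
  have h1 : R ∈ Polynomial.lifts (Nat.castRingHom ℤ) := by
    rw [Polynomial.lifts_iff_coeff_lifts]
    intro N
    exact ⟨(R.coeff N).toNat, by simp [Int.toNat_of_nonneg (h N)]⟩
  rw [Polynomial.mem_lifts] at h1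
  obtain ⟨p, hp⟩ := h1
  exact ⟨p, hp.symm⟩

theorem pos_zero (hGEN : ST_GEN) (hMP : ST_MP) (hTT : ST_TT) (hSD : ST_SD) (n : ℕ) (cs : List ℕ)
    (hcs : Dec cs) (hle : ∀ c ∈ cs, c ≤ n) (μ : Fin n → ℕ) (hμ : Antitone μ)
    (h : ¬ Dge (fun i => (rowl n cs i : ℤ)) (fun i => (μ i : ℤ))) : aP n cs μ = 0 := by
  obtain ⟨hinj, hq, ht, -, -, hgen, -⟩ := hGEN
  obtain ⟨-, hfJ, -, -, hscf, -⟩ := hMP R0 (RatFunc (RatFunc ℚ)) emb
  apply hinj
  rw [map_zero]
  unfold aP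
  rw [hscf, hfJ, hq, ht]
  by_contra hne
  exact h (hSD n (RatFunc (RatFunc ℚ)) (fJ qF tF n cs) (rowl n cs) μ hμ
    (hTT (RatFunc (RatFunc ℚ)) qF tF hgen n cs hcs hle).1 hne)

theorem pos_dvd (hMP : ST_MP) (hVD : ST_VD) (n : ℕ) (cs : List ℕ)
    (hcs : Dec cs) (hle : ∀ c ∈ cs, c ≤ n) (hsum : cs.sum = n) (μ : Fin n → ℕ) (k : ℕ) :
    ∃ R : Polynomial ℤ, (aP n cs μ).eval (Polynomial.X ^ k) = (1 - Polynomial.X) ^ n * R := by
  obtain ⟨-, hfJ, -, -, hscf, -⟩ := hMP R0 (Polynomial ℤ)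
    (Polynomial.evalRingHom (Polynomial.X ^ k : Polynomial ℤ))
  have h1 : (aP n cs μ).eval (Polynomial.X ^ k) =
      scf n μ (fJ (Polynomial.X : Polynomial ℤ) (Polynomial.X ^ k) n cs) := by
    unfold aP
    have h2 := hscf n μ (fJ qz tz n cs)
    rw [hfJ] at h2
    have h3 : Polynomial.evalRingHom (Polynomial.X ^ k : Polynomial ℤ) qz = Polynomial.X := by
      simp [qz]
    have h4 : Polynomial.evalRingHom (Polynomial.X ^ k : Polynomial ℤ) tz =
        Polynomial.X ^ k := by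
      simp [tz]
    rw [h3, h4] at h2
    exact h2
  rw [h1]
  have h5 := pos_div ((1 - Polynomial.X : Polynomial ℤ) ^ cs.sum)
    (fJ (Polynomial.X : Polynomial ℤ) (Polynomial.X ^ k) n cs) (hVD k n cs hcs hle) μ
  rw [hsum] at h5
  obtain ⟨R, hR⟩ := h5
  exact ⟨R, hR⟩

theorem pos_Q (hCL : ST_CL) (hQ1 : ST_Q1) (hEX : ST_EX) (n : ℕ) (cs : List ℕ)
    (hcs : Dec cs) (hle : ∀ c ∈ cs, c ≤ n) (hsum : cs.sum = n) (μ : Fin n → ℕ)
    (hμ : Antitone μ) (hμs : ∑ i, μ i = n)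
    (h : Dge (fun i => (rowl n cs i : ℤ)) (fun i => (μ i : ℤ))) :
    ∃ (K : ℕ) (h : Fin n → ℕ), 0 < K ∧ (∀ c, 0 < h c) ∧ ∑ c, h c = legS cs ∧
      (aP n cs μ).map (Polynomial.evalRingHom (1 : ℤ)) =
        Polynomial.C (K : ℤ) * ∏ c, (1 - Polynomial.X ^ h c) ∧
      ∀ N, 0 ≤ ((aP n cs μ).coeff 0).coeff N := by
  classical
  obtain ⟨T, hT⟩ : ∃ T : Finset (List (Finset ℕ)), T = (tl n cs).filter
      (fun b => HW n b ∧ ∀ i : Fin n, wtc b i.val = μ i) := ⟨_, rfl⟩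
  have hT' : ∀ b, b ∈ T ↔ b ∈ tl n cs ∧ HW n b ∧ ∀ i : Fin n, wtc b i.val = μ i := by
    intro b
    rw [hT, Finset.mem_filter]
  obtain ⟨b, hb, hb1, hb2⟩ := hEX n cs μ hcs hle hμ (by rw [hμs, hsum]) h
  have hcard : 0 < T.card := Finset.card_pos.mpr ⟨b, (hT' b).mpr ⟨hb, hb1, hb2⟩⟩
  obtain ⟨hq1, hq2⟩ := hQ1 n cs μ hcs hle hμ T hT'
  obtain ⟨hh, hh0, hhs, hhp⟩ := hCL n cs hsum
  refine ⟨T.card, hh, hcard, hh0, hhs, ?_, ?_⟩
  · rw [hq1, hhp]
  · intro N
    rw [hq2, Polynomial.finsetSum_coeff]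
    apply Finset.sum_nonneg
    intro b _
    rw [Polynomial.coeff_X_pow]
    split_ifs <;> norm_num

theorem pos_unif {α β : Type} (s : Finset α) (t : Finset β) (Q : α → β → ℕ → Prop)
    (h : ∀ a ∈ s, ∀ b ∈ t, ∃ k0 : ℕ, ∀ k ≥ k0, Q a b k) :
    ∃ k0 : ℕ, ∀ k ≥ k0, ∀ a ∈ s, ∀ b ∈ t, Q a b k := by
  classical
  have h' : ∀ a : α, ∀ b : β, ∃ k0 : ℕ, a ∈ s → b ∈ t → ∀ k ≥ k0, Q a b k := by
    intro a b
    by_cases ha : a ∈ s
    · by_cases hb : b ∈ t
      · obtain ⟨k0, hk0⟩ := h a ha b hb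
        exact ⟨k0, fun _ _ => hk0⟩
      · exact ⟨0, fun _ hb' => absurd hb' hb⟩
    · exact ⟨0, fun ha' => absurd ha' ha⟩
  choose f hf using h'
  refine ⟨(s ×ˢ t).sup (fun p => f p.1 p.2), ?_⟩
  intro k hk a ha b hb
  refine hf a b ha hb k (le_trans ?_ hk)
  have hab : (a, b) ∈ s ×ˢ t := Finset.mem_product.mpr ⟨ha, hb⟩
  exact Finset.le_sup (f := fun p : α × β => f p.1 p.2) hab

theorem st_POS (hFIN : ST_FIN) (hCL : ST_CL) (hQ1 : ST_Q1) (hEX : ST_EX) (hSYA : ST_SYA)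
    (hSD : ST_SD) (hTT : ST_TT) (hGEN : ST_GEN) (hMP : ST_MP) (hVD : ST_VD) (hLOW : ST_LOW)
    (hPAL : ST_PAL) (hCO : ST_CO) : ST_POS := by
  intro n P hP
  constructor
  · apply pos_unif (parts n) (parts n) (fun lam μ k => ∃ R : Polynomial ℕ,
      (aP n (cols lam) μ).eval (Polynomial.X ^ k) =
        (1 - Polynomial.X) ^ n * R.map (Nat.castRingHom ℤ))
    intro lam hlam μ hμ
    obtain ⟨hcs, hle, hsum, hrow, -⟩ := hCO n lam hlam
    obtain ⟨hμa, hμs⟩ := (mem_parts μ).1 hμ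
    by_cases hd : Dge (fun i => (rowl n (cols lam) i : ℤ)) (fun i => (μ i : ℤ))
    · obtain ⟨K, hh, hK, hh0, hhs, hA1, hA0⟩ := pos_Q hCL hQ1 hEX n (cols lam) hcs hle hsum μ
        hμa hμs hd
      obtain ⟨hs1, hs2⟩ := hSYA n P hP (cols lam) hcs hle hsum (by rw [hrow]; exact hlam) μ hμ
      rcases Nat.eq_zero_or_pos n with hn | hn
      · subst hn
        obtain ⟨p, hp⟩ := pos_lift ((aP 0 (cols lam) μ).coeff 0) hA0
        refine ⟨0, fun k _ => ⟨p, ?_⟩⟩
        have hc : aP 0 (cols lam) μ = Polynomial.C ((aP 0 (cols lam) μ).coeff 0) := by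
          ext j i
          rcases Nat.eq_zero_or_pos j with hj | hj
          · subst hj
            simp
          · rw [Polynomial.coeff_C, if_neg (by omega), Polynomial.coeff_zero]
            apply hs1
            right
            have : legS (cols lam) = 0 := by
              rw [← hhs]; simp
            omega
        rw [hc, Polynomial.eval_C, pow_zero, one_mul, hp]
      · have hcond : 2 ≤ n ∨ (n = 1 ∧ armS (cols lam) = 0 ∧ ∑ c, hh c = 1) := by
          rcases Nat.lt_or_ge n 2 with hn2 | hn2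
          · right
            have hn1 : n = 1 := by omega
            refine ⟨hn1, ?_⟩
            rw [hhs]
            have h1 : cols lam = [1] := by
              subst hn1
              have h2 : cols lam = [(univ.filter (fun i : Fin 1 => 0 < lam i)).card] := by
                simp [cols]
              rw [h2] at hsum ⊢
              simp at hsum ⊢
              exact hsum
            rw [h1]
            simp [armS, legS, rowl, dl]
          · left; exact hn2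
        obtain ⟨k0, hk0⟩ := hFIN n (aP n (cols lam) μ) K hh (armS (cols lam)) hcond hh0 hK hA1
          hA0 (by rw [hhs]; exact hs1) (by rw [hhs]; exact hs2)
        refine ⟨k0, fun k hk => ?_⟩
        obtain ⟨R, hR⟩ := pos_dvd hMP hVD n (cols lam) hcs hle hsum μ k
        obtain ⟨p, hp⟩ := pos_lift R (hk0 k hk R hR)
        exact ⟨p, by rw [hR, hp]⟩
    · refine ⟨0, fun k _ => ⟨0, ?_⟩⟩
      rw [pos_zero hGEN hMP hTT hSD n (cols lam) hcs hle μ hμa hd]
      simp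
  · intro k lam hlam μ hμ
    obtain ⟨hcs, hle, hsum, hrow, -⟩ := hCO n lam hlam
    obtain ⟨hμa, hμs⟩ := (mem_parts μ).1 hμ
    by_cases hd : Dge (fun i => (rowl n (cols lam) i : ℤ)) (fun i => (μ i : ℤ))
    · obtain ⟨K, hh, hK, hh0, hhs, hA1, hA0⟩ := pos_Q hCL hQ1 hEX n (cols lam) hcs hle hsum μ
        hμa hμs hd
      obtain ⟨hs1, hs2⟩ := hSYA n P hP (cols lam) hcs hle hsum (by rw [hrow]; exact hlam) μ hμ
      obtain ⟨R, hR⟩ := pos_dvd hMP hVD n (cols lam) hcs hle hsum μ k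
      obtain ⟨hp1, hp2⟩ := hPAL n k (armS (cols lam)) (legS (cols lam)) (aP n (cols lam) μ) R
        hs1 hs2 hR
      refine ⟨R, armS (cols lam) + k * legS (cols lam) - n, hR, ?_, ?_,
        hLOW n k (aP n (cols lam) μ) R hA0 hR⟩
      · rw [Polynomial.natDegree_le_iff_coeff_eq_zero]
        intro N hN
        apply hp1
        omega
      · intro N hN
        rcases Nat.lt_or_ge (armS (cols lam) + k * legS (cols lam)) n with hlt | hge
        · rw [hp1 N (by omega), hp1 _ (by omega)]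
        · exact hp2 N (by omega)
    · refine ⟨0, 0, ?_, ?_, ?_, ?_⟩
      · rw [pos_zero hGEN hMP hTT hSD n (cols lam) hcs hle μ hμa hd]
        simp
      · simp
      · simp
      · simp

end Pool.Agent.Helper49.HL
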